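import Pool.Agent.Lib.helper21.ABEnt

/-! The entropy of `f_{a,b}` is constant in `a ∈ [-1, -1/(b+1)]` for `0 ≤ b ≤ 1/2`. -/

set_option autoImplicit false

namespace Pool.Agent.Results.MP_a78abf_an.Plateau

open Pool.Agent.Lib.Helper21.ABDef Pool.Agent.Lib.Helper21.ABEnt

theorem result (a b : ℝ) (hb : 0 ≤ b) (hb' : b ≤ 1 / 2) (ha : -1 ≤ a) (ha' : a ≤ -1 / (b + 1)) :
    ∃ h : ℝ, HasEnt a b h ∧ HasEnt (-1) b h := by
  obtain ⟨h, H⟩ := exists_ent a b
  obtain ⟨h', H'⟩ := exists_ent (-1) b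
  have a1 : a * (b + 1) ≤ -1 := (le_div_iff₀ (by linarith)).1 ha'
  have a0 : a ≤ -1 / 2 := by nlinarith
  have := mono ⟨by norm_num, hb, by linarith, by linarith⟩ ⟨by linarith, hb, by nlinarith, by nlinarith⟩ ha a0
    le_rfl (by linarith) H' H
  exact ⟨h, H, le_antisymm this (plateau hb (by linarith) ha ha' H H') ▸ H'⟩

end Pool.Agent.Results.MP_a78abf_an.Plateau
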